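import Pool.Agent.Results.MP_9fc4df_co.F4Alcove

/-!
# The arrangement of the affine Coxeter group of type F₄ and its alcoves

`U` is the union of the hyperplanes of the arrangement; `Pres w` says that the isometry `w`
preserves `U`.  Every point of `ℝ⁴` is carried into the fundamental alcove `big` by such an isometry,
and the interior of the alcove does not meet `U`.
-/

set_option autoImplicit false

namespace Pool.Agent.Y432.F4

open Pool.Agent.Results.MP_9fc4df_co.F4Alcove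

/-- the union of the hyperplanes `∑ a_i x_i = 2 n`, `a` an integer vector of norm `2` or `4` -/
def U : Set E4 :=
  {x | ∃ a : Fin 4 → ℤ, (∑ i, a i ^ 2 = 2 ∨ ∑ i, a i ^ 2 = 4) ∧
    ∃ n : ℤ, ∑ i, (a i : ℝ) * x i = 2 * n}

/-- the isometry `w` preserves the union of the hyperplanes -/
def Pres (w : E4 ≃ᵢ E4) : Prop := ∀ x, w x ∈ U ↔ x ∈ U

lemma Pres.refl : Pres (IsometryEquiv.refl E4) := fun _ => Iff.rfl

lemma Pres.trans {w w' : E4 ≃ᵢ E4} (h : Pres w) (h' : Pres w') : Pres (w.trans w') := by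
  intro x
  rw [IsometryEquiv.trans_apply, h', h]

lemma Pres.symm {w : E4 ≃ᵢ E4} (h : Pres w) : Pres w.symm := by
  intro x
  have := h (w.symm x)
  rw [IsometryEquiv.apply_symm_apply] at this
  exact this.symm

lemma pres_of {w : E4 ≃ᵢ E4} (h1 : ∀ x, x ∈ U → w x ∈ U) (h2 : ∀ x, x ∈ U → w.symm x ∈ U) :
    Pres w := by
  intro x
  refine ⟨fun h => ?_, h1 x⟩
  have := h2 _ h
  rwa [IsometryEquiv.symm_apply_apply] at this

/-- translations -/
noncomputable def tr (v : E4) : E4 ≃ᵢ E4 := IsometryEquiv.addRight v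

lemma tr_apply (v x : E4) (i : Fin 4) : tr v x i = x i + v i := rfl

lemma even_sum {a : Fin 4 → ℤ} (h : ∑ i, a i ^ 2 = 2 ∨ ∑ i, a i ^ 2 = 4) : Even (∑ i, a i) := by
  have h1 : Even (∑ i, a i ^ 2) := by
    rcases h with h | h <;> rw [h] <;> decide
  have h2 : Even (∑ i, (a i ^ 2 + a i)) := by
    apply Finset.even_sum
    intro i _
    have h3 := Int.even_mul_succ_self (a i)
    have h4 : a i ^ 2 + a i = a i * (a i + 1) := by ring
    rw [h4]
    exact h3
  rw [Finset.sum_add_distrib] at h2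
  exact (Int.even_add.mp h2).mp h1

lemma tr_mem (k : Fin 4 → ℤ) (e : ℤ) {v : E4} (hv : ∀ i, v i = 2 * (k i : ℝ) + e) (x : E4)
    (hx : x ∈ U) : tr v x ∈ U := by
  obtain ⟨a, ha, n, hn⟩ := hx
  obtain ⟨q, hq⟩ := even_sum ha
  refine ⟨a, ha, n + ∑ i, a i * k i + e * q, ?_⟩
  have hq' : (∑ i, (a i : ℝ)) = q + q := by exact_mod_cast hq
  have h3 : ∑ i, (a i : ℝ) * tr v x i = ∑ i, (a i : ℝ) * x i + 2 * ∑ i, (a i : ℝ) * k i +
      e * ∑ i, (a i : ℝ) := by
    rw [Finset.mul_sum, Finset.mul_sum, ← Finset.sum_add_distrib, ← Finset.sum_add_distrib]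
    apply Finset.sum_congr rfl
    intro i _
    rw [tr_apply, hv]
    ring
  rw [h3, hn, hq']
  push_cast
  ring

lemma tr_pres (k : Fin 4 → ℤ) (e : ℤ) {v : E4} (hv : ∀ i, v i = 2 * (k i : ℝ) + e) :
    Pres (tr v) := by
  apply pres_of (tr_mem k e hv)
  intro x hx
  have h : (tr v).symm x = tr (-v) x := by
    rw [IsometryEquiv.symm_apply_eq]
    ext i
    rw [tr_apply, tr_apply]
    simp
  rw [h]
  apply tr_mem (fun i => - k i) (-e) _ x hx
  intro i
  have := hv i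
  simp only [PiLp.neg_apply, this]
  push_cast
  ring

/-- sign changes -/
noncomputable def sg (e : Fin 4 → ℤ) (he : ∀ i, e i = 1 ∨ e i = -1) : E4 ≃ᵢ E4 where
  toFun x := WithLp.toLp 2 (fun i => (e i : ℝ) * x i)
  invFun x := WithLp.toLp 2 (fun i => (e i : ℝ) * x i)
  left_inv x := by
    ext i
    have : (e i : ℝ) * e i = 1 := by rcases he i with h | h <;> rw [h] <;> norm_num
    change (e i : ℝ) * ((e i : ℝ) * x i) = x i
    rw [← mul_assoc, this, one_mul]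
  right_inv x := by
    ext i
    have : (e i : ℝ) * e i = 1 := by rcases he i with h | h <;> rw [h] <;> norm_num
    change (e i : ℝ) * ((e i : ℝ) * x i) = x i
    rw [← mul_assoc, this, one_mul]
  isometry_toFun := by
    apply Isometry.of_dist_eq
    intro x y
    rw [EuclideanSpace.dist_eq, EuclideanSpace.dist_eq]
    congr 1
    apply Finset.sum_congr rfl
    intro i _
    change dist ((e i : ℝ) * x i) ((e i : ℝ) * y i) ^ 2 = _
    rw [Real.dist_eq, Real.dist_eq, sq_abs, sq_abs]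
    rcases he i with h | h <;> rw [h] <;> push_cast <;> ring

lemma sg_apply (e : Fin 4 → ℤ) (he : ∀ i, e i = 1 ∨ e i = -1) (x : E4) (i : Fin 4) :
    sg e he x i = (e i : ℝ) * x i := rfl

lemma sg_mem (e : Fin 4 → ℤ) (he : ∀ i, e i = 1 ∨ e i = -1) (x : E4) (hx : x ∈ U) :
    sg e he x ∈ U := by
  obtain ⟨a, ha, n, hn⟩ := hx
  have h1 : ∑ i, (a i * e i) ^ 2 = ∑ i, a i ^ 2 := by
    apply Finset.sum_congr rfl
    intro i _
    rcases he i with h | h <;> rw [h] <;> ring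
  refine ⟨fun i => a i * e i, ?_, n, ?_⟩
  · simp only [h1]; exact ha
  · rw [← hn]
    apply Finset.sum_congr rfl
    intro i _
    rw [sg_apply]
    have h2 : (e i : ℝ) * e i = 1 := by rcases he i with h | h <;> rw [h] <;> norm_num
    push_cast
    linear_combination (a i : ℝ) * x i * h2

lemma sg_pres (e : Fin 4 → ℤ) (he : ∀ i, e i = 1 ∨ e i = -1) : Pres (sg e he) :=
  pres_of (sg_mem e he) (sg_mem e he)

/-- permutations of the coordinates -/
noncomputable def pm (σ : Equiv.Perm (Fin 4)) : E4 ≃ᵢ E4 where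
  toFun x := WithLp.toLp 2 (fun i => x (σ i))
  invFun x := WithLp.toLp 2 (fun i => x (σ.symm i))
  left_inv x := by
    ext i
    change x (σ (σ.symm i)) = x i
    rw [Equiv.apply_symm_apply]
  right_inv x := by
    ext i
    change x (σ.symm (σ i)) = x i
    rw [Equiv.symm_apply_apply]
  isometry_toFun := by
    apply Isometry.of_dist_eq
    intro x y
    rw [EuclideanSpace.dist_eq, EuclideanSpace.dist_eq]
    congr 1
    exact Equiv.sum_comp σ (fun i => dist (x i) (y i) ^ 2)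

lemma pm_apply (σ : Equiv.Perm (Fin 4)) (x : E4) (i : Fin 4) : pm σ x i = x (σ i) := rfl

lemma pm_mem (σ : Equiv.Perm (Fin 4)) (x : E4) (hx : x ∈ U) : pm σ x ∈ U := by
  obtain ⟨a, ha, n, hn⟩ := hx
  have h1 : ∑ i, a (σ i) ^ 2 = ∑ i, a i ^ 2 := Equiv.sum_comp σ (fun i => a i ^ 2)
  refine ⟨fun i => a (σ i), ?_, n, ?_⟩
  · simp only [h1]; exact ha
  · rw [← hn]
    exact Equiv.sum_comp σ (fun i => (a i : ℝ) * x i)

lemma pm_pres (σ : Equiv.Perm (Fin 4)) : Pres (pm σ) :=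
  pres_of (pm_mem σ) (pm_mem σ.symm)

/-- the reflection in `x₀ = x₁ + x₂ + x₃` -/
noncomputable def rs : E4 ≃ᵢ E4 where
  toFun x := !₂[x 0 - (x 0 - x 1 - x 2 - x 3) / 2, x 1 + (x 0 - x 1 - x 2 - x 3) / 2,
    x 2 + (x 0 - x 1 - x 2 - x 3) / 2, x 3 + (x 0 - x 1 - x 2 - x 3) / 2]
  invFun x := !₂[x 0 - (x 0 - x 1 - x 2 - x 3) / 2, x 1 + (x 0 - x 1 - x 2 - x 3) / 2,
    x 2 + (x 0 - x 1 - x 2 - x 3) / 2, x 3 + (x 0 - x 1 - x 2 - x 3) / 2]
  left_inv x := by ext i; fin_cases i <;> simp <;> ring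
  right_inv x := by ext i; fin_cases i <;> simp <;> ring
  isometry_toFun := by
    apply Isometry.of_dist_eq
    intro x y
    apply dist_eq_of_sq
    rw [dist_sq, dist_sq]
    simp
    ring

lemma rs_apply (x : E4) : rs x = !₂[x 0 - (x 0 - x 1 - x 2 - x 3) / 2,
    x 1 + (x 0 - x 1 - x 2 - x 3) / 2, x 2 + (x 0 - x 1 - x 2 - x 3) / 2,
    x 3 + (x 0 - x 1 - x 2 - x 3) / 2] := rfl

lemma rs_mem (x : E4) (hx : x ∈ U) : rs x ∈ U := by
  obtain ⟨a, ha, n, hn⟩ := hx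
  obtain ⟨r, hr⟩ := even_sum ha
  rw [Fin.sum_univ_four] at hr hn
  have hq : a 0 - a 1 - a 2 - a 3 = 2 * (a 0 - r) := by linarith
  set q := a 0 - r with hqd
  refine ⟨![a 0 - q, a 1 + q, a 2 + q, a 3 + q], ?_, n, ?_⟩
  · rw [Fin.sum_univ_four] at ha ⊢
    simp only [Matrix.cons_val_zero, Matrix.cons_val_one, Matrix.cons_val]
    have : (a 0 - q) ^ 2 + (a 1 + q) ^ 2 + (a 2 + q) ^ 2 + (a 3 + q) ^ 2 =
        a 0 ^ 2 + a 1 ^ 2 + a 2 ^ 2 + a 3 ^ 2 := by
      have : (a 0 - q) ^ 2 + (a 1 + q) ^ 2 + (a 2 + q) ^ 2 + (a 3 + q) ^ 2 =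
        a 0 ^ 2 + a 1 ^ 2 + a 2 ^ 2 + a 3 ^ 2 - 2 * q * (a 0 - a 1 - a 2 - a 3 - 2 * q) := by ring
      rw [this, hq]; ring
    rw [this]
    exact ha
  · rw [Fin.sum_univ_four, rs_apply]
    have hq' : (a 0 : ℝ) - a 1 - a 2 - a 3 = 2 * q := by exact_mod_cast hq
    simp only [Matrix.cons_val_zero, Matrix.cons_val_one, Matrix.cons_val]
    push_cast
    have e : (x 0 - (x 0 - x 1 - x 2 - x 3) / 2) * (a 0 - (q : ℝ)) = 
      (a 0 - (q : ℝ)) * (x 0 - (x 0 - x 1 - x 2 - x 3) / 2) := by ring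
    linear_combination hn + (- (x 0 - x 1 - x 2 - x 3) / 2) * hq'

lemma rs_pres : Pres rs := pres_of rs_mem rs_mem

end Pool.Agent.Y432.F4
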