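import Pool.Agent.Y432.F4.Cov

/-!
# Dilated alcoves are tiled by alcoves
-/

set_option autoImplicit false

namespace Pool.Agent.Y432.F4

open Pool.Agent.Results.MP_9fc4df_co.F4Alcove
open MeasureTheory

lemma A_convex : Convex ℝ (solid big) := convex_convexHull ℝ _

lemma A_compact : IsCompact (solid big) :=
  Set.Finite.isCompact_convexHull ℝ (Set.finite_range big.points)

lemma strict_sub : {x : E4 | x 1 + x 2 + x 3 < x 0 ∧ x 2 < x 1 ∧ x 3 < x 2 ∧ 0 < x 3 ∧ x 0 < 1} ⊆
    solid big := by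
  rw [solid_big]
  rintro x ⟨a, b, c, d, e⟩
  exact ⟨a.le, b.le, c.le, d.le, e.le⟩

lemma strict_open (a b : ℝ) (c : ℝ) : IsOpen {x : E4 | x 1 + x 2 + x 3 < x 0 ∧ x 2 < x 1 ∧
    x 3 < x 2 ∧ 0 < x 3 ∧ a * x 0 + b * x 1 < c} := by
  have h : ∀ i : Fin 4, Continuous fun x : E4 => x i := fun i => by fun_prop
  refine IsOpen.inter (isOpen_lt (((h 1).add (h 2)).add (h 3)) (h 0))
    (IsOpen.inter (isOpen_lt (h 2) (h 1))
    (IsOpen.inter (isOpen_lt (h 3) (h 2)) (IsOpen.inter (isOpen_lt continuous_const (h 3))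
      (isOpen_lt ((continuous_const.mul (h 0)).add (continuous_const.mul (h 1)))
        continuous_const))))

lemma A_int : (interior (solid big)).Nonempty := by
  refine ⟨!₂[9/10, 3/10, 2/10, 1/10], ?_⟩
  have h1 : {x : E4 | x 1 + x 2 + x 3 < x 0 ∧ x 2 < x 1 ∧
    x 3 < x 2 ∧ 0 < x 3 ∧ 1 * x 0 + 0 * x 1 < 1} ⊆ solid big := by
    intro x hx
    apply strict_sub
    obtain ⟨a, b, c, d, e⟩ := hx
    exact ⟨a, b, c, d, by linarith⟩
  apply interior_maximal h1 (strict_open 1 0 1)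
  simp
  norm_num

lemma im_convex (w : E4 ≃ᵢ E4) {S : Set E4} (h : Convex ℝ S) : Convex ℝ (w '' S) :=
  h.affine_image w.toRealAffineIsometryEquiv.toAffineEquiv.toAffineMap

lemma im_interior (w : E4 ≃ᵢ E4) (S : Set E4) : interior (w '' S) = w '' interior S :=
  (w.toHomeomorph.image_interior S).symm

lemma im_frontier (w : E4 ≃ᵢ E4) (S : Set E4) : frontier (w '' S) = w '' frontier S :=
  (w.toHomeomorph.image_frontier S).symm

lemma lin_vol (Q : E4 ≃ₗᵢ[ℝ] E4) (S : Set E4) : volume (Q '' S) = volume S := by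
  have h1 := Q.symm.measurePreserving
  have h2 : Q '' S = Q.symm ⁻¹' S := by
    exact Q.toEquiv.image_eq_preimage_symm S
  rw [h2]
  exact h1.measure_preimage_emb Q.symm.toHomeomorph.measurableEmbedding S

lemma im_vol (w : E4 ≃ᵢ E4) (S : Set E4) : volume (w '' S) = volume S := by
  have h : w '' S = (fun y => y + w 0) '' (w.toRealLinearIsometryEquiv '' S) := by
    rw [Set.image_image]
    apply Set.image_congr
    intro x _
    rw [IsometryEquiv.toRealLinearIsometryEquiv_apply]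
    simp
  rw [h, Set.image_add_right, measure_preimage_add_right, lin_vol]

/-- a connected set that meets a closed set but not its frontier lies inside -/
lemma sub_of_meet {C S : Set E4} (hC : IsPreconnected C) (hS : IsClosed S)
    (h1 : ∀ x ∈ C, x ∉ frontier S) (h2 : (C ∩ S).Nonempty) : C ⊆ interior S := by
  apply hC.subset_left_of_subset_union (v := Sᶜ) isOpen_interior hS.isOpen_compl
  · rw [Set.disjoint_left]
    intro x hx hx'
    exact hx' (interior_subset hx)
  · intro x hx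
    by_cases hxS : x ∈ S
    · left
      by_contra hni
      exact h1 x hx ⟨subset_closure hxS, hni⟩
    · right; exact hxS
  · obtain ⟨x, hxC, hxS⟩ := h2
    refine ⟨x, hxC, ?_⟩
    by_contra hni
    exact h1 x hxC ⟨subset_closure hxS, hni⟩

/-- hyperplanes are null sets -/
lemma null_plane {a : Fin 4 → ℝ} {i : Fin 4} (h : a i ≠ 0) (b : ℝ) :
    volume {x : E4 | lin a x = b} = 0 := by
  have hopen : IsOpenMap (lin a) := (lin a).isOpenMap_of_ne_zero (lin_ne h)
  have h1 : {x : E4 | lin a x = b} ⊆ frontier ((lin a) ⁻¹' Set.Iic b) := by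
    rw [← hopen.preimage_frontier_eq_frontier_preimage (lin a).continuous, frontier_Iic]
    intro x hx
    exact hx
  have h2 : Convex ℝ ((lin a) ⁻¹' Set.Iic b) :=
    (convex_Iic b).is_linear_preimage (lin a).toLinearMap.isLinear
  exact measure_mono_null h1 (h2.addHaar_frontier volume)

lemma null_U : volume U = 0 := by
  have h : U ⊆ ⋃ a : {a : Fin 4 → ℤ // ∃ i, a i ≠ 0}, ⋃ n : ℤ,
      {x : E4 | lin (fun i => (a.1 i : ℝ)) x = 2 * n} := by
    rintro x ⟨a, ha, n, hn⟩
    have hne : ∃ i, a i ≠ 0 := by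
      by_contra hcon
      push Not at hcon
      simp [hcon] at ha
    refine Set.mem_iUnion.mpr ⟨⟨a, hne⟩, Set.mem_iUnion.mpr ⟨n, ?_⟩⟩
    change lin (fun i => (a i : ℝ)) x = 2 * n
    rw [lin_apply]
    exact hn
  refine measure_mono_null h (measure_iUnion_null fun a => measure_iUnion_null fun n => ?_)
  obtain ⟨i, hi⟩ := a.2
  exact null_plane (i := i) (by exact_mod_cast hi) _

lemma frA (x : E4) (hx : x ∈ frontier (solid big)) (m : ℝ) (hm : m = 1) :
    x 1 + x 2 + x 3 = x 0 ∨ x 2 = x 1 ∨ x 3 = x 2 ∨ 0 = x 3 ∨ x 0 = m := by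
  subst hm
  have hx1 : x ∈ solid big := A_compact.isClosed.frontier_subset hx
  rw [solid_big] at hx1
  obtain ⟨a, b, c, d, e⟩ := hx1
  by_contra hcon
  push Not at hcon
  obtain ⟨a', b', c', d', e'⟩ := hcon
  apply hx.2
  have h1 : {x : E4 | x 1 + x 2 + x 3 < x 0 ∧ x 2 < x 1 ∧
    x 3 < x 2 ∧ 0 < x 3 ∧ 1 * x 0 + 0 * x 1 < 1} ⊆ solid big := by
    intro x hx
    apply strict_sub
    obtain ⟨a, b, c, d, e⟩ := hx
    exact ⟨a, b, c, d, by linarith⟩
  apply interior_maximal h1 (strict_open 1 0 1)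
  exact ⟨lt_of_le_of_ne a a', lt_of_le_of_ne b b', lt_of_le_of_ne c c', lt_of_le_of_ne d d',
    by have := lt_of_le_of_ne e e'; linarith⟩

end Pool.Agent.Y432.F4
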