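import Pool.Agent.Y432.F4.Arr

/-!
# The alcoves cover the space, and the open fundamental alcove does not meet the hyperplanes
-/

set_option autoImplicit false

namespace Pool.Agent.Y432.F4

open Pool.Agent.Results.MP_9fc4df_co.F4Alcove

lemma step1 (x : E4) : ∃ w, Pres w ∧ ∀ i, |w x i| ≤ 1 := by
  refine ⟨tr (WithLp.toLp 2 (fun i => 2 * (((- round (x i / 2) : ℤ)) : ℝ) + ((0 : ℤ) : ℝ))),
    tr_pres (fun i => - round (x i / 2)) 0 (fun i => rfl), ?_⟩
  intro i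
  rw [tr_apply]
  have h := abs_sub_round (x i / 2)
  change |x i + (2 * (((- round (x i / 2) : ℤ)) : ℝ) + ((0 : ℤ) : ℝ))| ≤ 1
  push_cast
  have e : x i + (2 * -(round (x i / 2) : ℝ) + 0) = 2 * (x i / 2 - round (x i / 2)) := by ring
  rw [e, abs_mul]
  norm_num
  linarith

lemma step2 (x : E4) : ∃ w, Pres w ∧ ∀ i, w x i = |x i| := by
  refine ⟨sg (fun i => if x i < 0 then -1 else 1) (fun i => by dsimp only; split_ifs <;> simp),
    sg_pres _ _, ?_⟩
  intro i
  rw [sg_apply]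
  split_ifs with h
  · rw [abs_of_neg h]; push_cast; ring
  · rw [abs_of_nonneg (not_lt.mp h)]; push_cast; ring

lemma step3 (x : E4) (h0 : ∀ i, 0 ≤ x i) (h1 : ∀ i, x i ≤ 1) :
    ∃ w, Pres w ∧ (∀ i, 0 ≤ w x i) ∧ (∀ i, w x i ≤ 1) ∧ ∑ i, w x i ≤ 2 := by
  by_cases hs : ∑ i, x i ≤ 2
  · exact ⟨IsometryEquiv.refl E4, Pres.refl, h0, h1, hs⟩
  have hp1 : Pres (sg (fun _ => -1) (fun _ => Or.inr rfl)) := sg_pres _ _
  have hp2 : Pres (tr (WithLp.toLp 2 (fun _ => 2 * (((0 : ℤ)) : ℝ) + ((1 : ℤ) : ℝ)))) :=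
    tr_pres (fun _ => 0) 1 (fun _ => rfl)
  have key : ∀ i, ((sg (fun _ => -1) (fun _ => Or.inr rfl)).trans
      (tr (WithLp.toLp 2 (fun _ => 2 * (((0 : ℤ)) : ℝ) + ((1 : ℤ) : ℝ))))) x i = 1 - x i := by
    intro i
    rw [IsometryEquiv.trans_apply, tr_apply, sg_apply]
    change (((-1 : ℤ)) : ℝ) * x i + (2 * (((0 : ℤ)) : ℝ) + ((1 : ℤ) : ℝ)) = 1 - x i
    push_cast
    ring
  refine ⟨_, hp1.trans hp2, ?_, ?_, ?_⟩
  · intro i; rw [key]; linarith [h1 i]
  · intro i; rw [key]; linarith [h0 i]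
  · rw [Finset.sum_congr rfl (fun i _ => key i)]
    rw [Fin.sum_univ_four] at hs ⊢
    linarith

lemma step4 (x : E4) : ∃ w, Pres w ∧ ∃ σ : Equiv.Perm (Fin 4), (∀ i, w x i = x (σ i)) ∧
    x (σ 1) ≤ x (σ 0) ∧ x (σ 2) ≤ x (σ 1) ∧ x (σ 3) ≤ x (σ 2) := by
  refine ⟨pm (Tuple.sort (fun i => - x i)), pm_pres _, Tuple.sort (fun i => - x i),
    fun i => rfl, ?_, ?_, ?_⟩
  · have := Tuple.monotone_sort (fun i => - x i) (show (0 : Fin 4) ≤ 1 by decide)
    simpa using this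
  · have := Tuple.monotone_sort (fun i => - x i) (show (1 : Fin 4) ≤ 2 by decide)
    simpa using this
  · have := Tuple.monotone_sort (fun i => - x i) (show (2 : Fin 4) ≤ 3 by decide)
    simpa using this

lemma step5 (x : E4) (h0 : x 0 ≤ 1) (h1 : x 1 ≤ x 0) (h2 : x 2 ≤ x 1) (h3 : x 3 ≤ x 2)
    (h4 : 0 ≤ x 3) (hs : x 0 + x 1 + x 2 + x 3 ≤ 2) : ∃ w, Pres w ∧ InBig (w x) := by
  by_cases hc : x 1 + x 2 + x 3 ≤ x 0
  · exact ⟨IsometryEquiv.refl E4, Pres.refl, hc, h2, h3, h4, h0⟩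
  rw [not_le] at hc
  have c0 : rs x 0 = x 0 - (x 0 - x 1 - x 2 - x 3) / 2 := rfl
  have c1 : rs x 1 = x 1 + (x 0 - x 1 - x 2 - x 3) / 2 := rfl
  have c2 : rs x 2 = x 2 + (x 0 - x 1 - x 2 - x 3) / 2 := rfl
  have c3 : rs x 3 = x 3 + (x 0 - x 1 - x 2 - x 3) / 2 := rfl
  by_cases hd : 0 ≤ x 3 + (x 0 - x 1 - x 2 - x 3) / 2
  · refine ⟨rs, rs_pres, ?_, ?_, ?_, ?_, ?_⟩
    · rw [c0, c1, c2, c3]; linarith
    · rw [c1, c2]; linarith
    · rw [c2, c3]; linarith
    · rw [c3]; linarith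
    · rw [c0]; linarith
  · rw [not_le] at hd
    have hp : Pres (sg ![1, 1, 1, -1] (fun i => by fin_cases i <;> simp)) := sg_pres _ _
    have d0 : sg ![1, 1, 1, -1] (fun i => by fin_cases i <;> simp) (rs x) 0 =
        x 0 - (x 0 - x 1 - x 2 - x 3) / 2 := by
      rw [sg_apply, c0]; simp
    have d1 : sg ![1, 1, 1, -1] (fun i => by fin_cases i <;> simp) (rs x) 1 =
        x 1 + (x 0 - x 1 - x 2 - x 3) / 2 := by
      rw [sg_apply, c1]; simp
    have d2 : sg ![1, 1, 1, -1] (fun i => by fin_cases i <;> simp) (rs x) 2 =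
        x 2 + (x 0 - x 1 - x 2 - x 3) / 2 := by
      rw [sg_apply, c2]; simp
    have d3 : sg ![1, 1, 1, -1] (fun i => by fin_cases i <;> simp) (rs x) 3 =
        - (x 3 + (x 0 - x 1 - x 2 - x 3) / 2) := by
      rw [sg_apply, c3]; simp
    refine ⟨rs.trans (sg ![1, 1, 1, -1] (fun i => by fin_cases i <;> simp)),
      rs_pres.trans hp, ?_, ?_, ?_, ?_, ?_⟩
    · rw [IsometryEquiv.trans_apply, d0, d1, d2, d3]; linarith
    · rw [IsometryEquiv.trans_apply, d1, d2]; linarith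
    · rw [IsometryEquiv.trans_apply, d2, d3]; linarith
    · rw [IsometryEquiv.trans_apply, d3]; linarith
    · rw [IsometryEquiv.trans_apply, d0]; linarith

/-- **The alcoves cover the space.** -/
lemma cover (x : E4) : ∃ w, Pres w ∧ w x ∈ solid big := by
  obtain ⟨w1, p1, a1⟩ := step1 x
  obtain ⟨w2, p2, a2⟩ := step2 (w1 x)
  obtain ⟨w3, p3, a3, b3, c3⟩ := step3 (w2 (w1 x)) (fun i => by rw [a2]; exact abs_nonneg _)
    (fun i => by rw [a2]; exact a1 i)
  obtain ⟨w4, p4, σ, a4, b4, c4, d4⟩ := step4 (w3 (w2 (w1 x)))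
  have hsum : ∑ i, w4 (w3 (w2 (w1 x))) i ≤ 2 := by
    rw [Finset.sum_congr rfl (fun i _ => a4 i),
      Equiv.sum_comp σ (fun i => w3 (w2 (w1 x)) i)]
    exact c3
  rw [Fin.sum_univ_four] at hsum
  obtain ⟨w5, p5, a5⟩ := step5 (w4 (w3 (w2 (w1 x)))) (by rw [a4]; exact b3 _)
    (by rw [a4, a4]; exact b4) (by rw [a4, a4]; exact c4) (by rw [a4, a4]; exact d4)
    (by rw [a4]; exact a3 _) hsum
  refine ⟨(((w1.trans w2).trans w3).trans w4).trans w5, (((p1.trans p2).trans p3).trans p4).trans p5,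
    ?_⟩
  rw [solid_big]
  exact a5

/-- a linear functional -/
noncomputable def lin (a : Fin 4 → ℝ) : E4 →L[ℝ] ℝ := ∑ i, a i • (EuclideanSpace.proj i : E4 →L[ℝ] ℝ)

lemma lin_apply (a : Fin 4 → ℝ) (x : E4) : lin a x = ∑ i, a i * x i := by
  simp [lin]

lemma lin_ne {a : Fin 4 → ℝ} {i : Fin 4} (h : a i ≠ 0) : lin a ≠ 0 := by
  intro h0
  have h1 : lin a (EuclideanSpace.single i (1 : ℝ)) = 0 := by rw [h0]; rfl
  rw [lin_apply] at h1
  rw [Finset.sum_eq_single i] at h1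
  · simp at h1; exact h h1
  · intro j _ hj
    simp [hj]
  · intro h; exact absurd (Finset.mem_univ i) h

lemma int_lt {L : E4 →L[ℝ] ℝ} (hne : L ≠ 0) {S : Set E4} {b : ℝ} (h : ∀ x ∈ S, L x ≤ b) :
    ∀ x ∈ interior S, L x < b := by
  have hopen : IsOpenMap L := L.isOpenMap_of_ne_zero hne
  have hsub : S ⊆ L ⁻¹' Set.Iic b := fun x hx => h x hx
  have := interior_mono hsub
  rw [← hopen.preimage_interior_eq_interior_preimage L.continuous, interior_Iic] at this
  exact this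

/-- the strict inequalities on the open alcove -/
lemma int_big {x : E4} (hx : x ∈ interior (solid big)) :
    x 1 + x 2 + x 3 < x 0 ∧ x 2 < x 1 ∧ x 3 < x 2 ∧ 0 < x 3 ∧ x 0 < 1 := by
  have h : ∀ y ∈ solid big, InBig y := fun y hy => by rw [solid_big] at hy; exact hy
  have h1 := int_lt (L := lin ![-1, 1, 1, 1]) (b := 0) (lin_ne (i := 0) (by simp))
    (S := solid big) (fun y hy => by
      rw [lin_apply, Fin.sum_univ_four]
      obtain ⟨a, b, c, d, e⟩ := h y hy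
      simp
      linarith) x hx
  have h2 := int_lt (L := lin ![0, -1, 1, 0]) (b := 0) (lin_ne (i := 1) (by simp))
    (S := solid big) (fun y hy => by
      rw [lin_apply, Fin.sum_univ_four]
      obtain ⟨a, b, c, d, e⟩ := h y hy
      simp
      linarith) x hx
  have h3 := int_lt (L := lin ![0, 0, -1, 1]) (b := 0) (lin_ne (i := 2) (by simp))
    (S := solid big) (fun y hy => by
      rw [lin_apply, Fin.sum_univ_four]
      obtain ⟨a, b, c, d, e⟩ := h y hy
      simp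
      linarith) x hx
  have h4 := int_lt (L := lin ![0, 0, 0, -1]) (b := 0) (lin_ne (i := 3) (by simp))
    (S := solid big) (fun y hy => by
      rw [lin_apply, Fin.sum_univ_four]
      obtain ⟨a, b, c, d, e⟩ := h y hy
      simp
      linarith) x hx
  have h5 := int_lt (L := lin ![1, 0, 0, 0]) (b := 1) (lin_ne (i := 0) (by simp))
    (S := solid big) (fun y hy => by
      rw [lin_apply, Fin.sum_univ_four]
      obtain ⟨a, b, c, d, e⟩ := h y hy
      simp
      linarith) x hx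
  rw [lin_apply, Fin.sum_univ_four] at h1 h2 h3 h4 h5
  simp at h1 h2 h3 h4 h5
  refine ⟨?_, ?_, ?_, ?_, ?_⟩ <;> linarith

lemma open_big {x : E4} (h : x 1 + x 2 + x 3 < x 0 ∧ x 2 < x 1 ∧ x 3 < x 2 ∧ 0 < x 3 ∧ x 0 < 1) :
    x ∉ U := by
  rintro ⟨a, ha, n, hn⟩
  obtain ⟨h1, h2, h3, h4, h5⟩ := h
  have key : (0 < ∑ i, (a i : ℝ) * x i ∨ ∑ i, (a i : ℝ) * x i < 0) ∧
      ∑ i, (a i : ℝ) * x i < 2 ∧ -2 < ∑ i, (a i : ℝ) * x i := by
    rw [Fin.sum_univ_four] at ha ⊢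
    have b : ∀ i, a i ^ 2 ≤ 4 := by
      have s0 := sq_nonneg (a 0)
      have s1 := sq_nonneg (a 1)
      have s2 := sq_nonneg (a 2)
      have s3 := sq_nonneg (a 3)
      intro i
      fin_cases i <;> simp only [Fin.zero_eta, Fin.mk_one, Fin.reduceFinMk] <;>
        rcases ha with ha | ha <;> linarith
    have hb : ∀ i, -2 ≤ a i ∧ a i ≤ 2 := fun i => by
      constructor <;> nlinarith [b i]
    obtain ⟨l0, u0⟩ := hb 0
    obtain ⟨l1, u1⟩ := hb 1
    obtain ⟨l2, u2⟩ := hb 2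
    obtain ⟨l3, u3⟩ := hb 3
    clear hb b hn
    generalize a 0 = a0 at *
    generalize a 1 = a1 at *
    generalize a 2 = a2 at *
    generalize a 3 = a3 at *
    interval_cases a0 <;> interval_cases a1 <;> interval_cases a2 <;> interval_cases a3 <;>
      first
      | (exfalso; revert ha; norm_num; done)
      | (push_cast; refine ⟨?_, ?_, ?_⟩
         · first | (left; linarith) | (right; linarith)
         · linarith
         · linarith)
  obtain ⟨hk, k1, k2⟩ := key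
  rw [hn] at hk k1 k2
  have n1 : n < 1 := by
    have : (n : ℝ) < 1 := by linarith
    exact_mod_cast this
  have n2 : -1 < n := by
    have : (-1 : ℝ) < n := by linarith
    exact_mod_cast this
  have n0 : n = 0 := by omega
  rw [n0] at hk
  norm_num at hk

/-- the open alcove does not meet the hyperplanes -/
lemma int_disj {x : E4} (hx : x ∈ interior (solid big)) : x ∉ U := open_big (int_big hx)

end Pool.Agent.Y432.F4
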