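import Pool.Agent.Y432.F4.Tile

/-!
# Reptilings of the alcove from dilations
-/

set_option autoImplicit false

namespace Pool.Agent.Y432.F4

open Pool.Agent.Results.MP_9fc4df_co.F4Alcove
open MeasureTheory Function
open scoped Pointwise

/-- volume of the image of a set under a similarity -/
lemma D_vol (D : E4 ≃ₗ[ℝ] E4) {c : ℝ} (hc : 0 < c) (hD : ∀ x y, dist (D x) (D y) = c * dist x y)
    (S : Set E4) : volume (D '' S) = ENNReal.ofReal (c ^ 4) * volume S := by
  have hn : ∀ x, ‖c⁻¹ • D x‖ = ‖x‖ := by
    intro x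
    have h := hD x 0
    rw [map_zero, dist_zero_right, dist_zero_right] at h
    rw [norm_smul, h, norm_inv, Real.norm_eq_abs, abs_of_pos hc]
    field_simp
  let Q : E4 ≃ₗᵢ[ℝ] E4 :=
    { toLinearEquiv := D.trans (LinearEquiv.smulOfNeZero ℝ E4 c⁻¹ (inv_ne_zero hc.ne'))
      norm_map' := fun x => hn x }
  have hQ : ∀ x, Q x = c⁻¹ • D x := fun x => rfl
  have h1 : D '' S = c • (Q '' S) := by
    rw [← Set.image_smul, Set.image_image]
    apply Set.image_congr
    intro x _
    rw [hQ, smul_smul, mul_inv_cancel₀ hc.ne', one_smul]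
  rw [h1, Measure.addHaar_smul, lin_vol]
  have h2 : Module.finrank ℝ E4 = 4 := by simp
  rw [h2, abs_of_pos (by positivity)]

/-- the similarity as a homeomorphism -/
lemma D_cont (D : E4 ≃ₗ[ℝ] E4) : Continuous D := D.toLinearMap.continuous_of_finiteDimensional

/-- the similarity as a homeomorphism -/
noncomputable def Dh (D : E4 ≃ₗ[ℝ] E4) : E4 ≃ₜ E4 where
  toEquiv := D.toEquiv
  continuous_toFun := D_cont D
  continuous_invFun := D_cont D.symm

lemma D_int (D : E4 ≃ₗ[ℝ] E4) (S : Set E4) : interior (D '' S) = D '' interior S :=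
  ((Dh D).image_interior S).symm

lemma D_fr (D : E4 ≃ₗ[ℝ] E4) (S : Set E4) : frontier (D '' S) = D '' frontier S :=
  ((Dh D).image_frontier S).symm

lemma D_clo (D : E4 ≃ₗ[ℝ] E4) (S : Set E4) : closure (D '' S) = D '' closure S :=
  ((Dh D).image_closure S).symm

/-- **The main lemma.** If a similarity of ratio `c` carries the frontier of the alcove into the
hyperplanes of the arrangement, and `c⁴ = N`, then the alcove is an `N`-reptile. -/
theorem reptile_of_dil (D : E4 ≃ₗ[ℝ] E4) {c : ℝ} (hc : 0 < c)
    (hD : ∀ x y, dist (D x) (D y) = c * dist x y)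
    (hfr : ∀ x ∈ frontier (solid big), D x ∈ U) {N : ℕ} (hN : c ^ 4 = N) :
    IsReptile 4 N big := by
  have hDs : ∀ x y, dist (D.symm x) (D.symm y) = c⁻¹ * dist x y := by
    intro x y
    have := hD (D.symm x) (D.symm y)
    rw [D.apply_symm_apply, D.apply_symm_apply] at this
    rw [this]
    field_simp
  set P : Set E4 := D '' solid big with hPdef
  have hPc : IsClosed P := (A_compact.image (D_cont D)).isClosed
  have hPv : volume P = ENNReal.ofReal (c ^ 4) * volume (solid big) := D_vol D hc hD _
  have hAv : volume (solid big) = volume (interior (solid big)) := by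
    have h := A_convex.addHaar_frontier volume
    apply le_antisymm _ (measure_mono interior_subset)
    calc volume (solid big) ≤ volume (interior (solid big) ∪ frontier (solid big)) := by
          apply measure_mono
          intro x hx
          by_cases hi : x ∈ interior (solid big)
          · exact Or.inl hi
          · exact Or.inr ⟨subset_closure hx, hi⟩
      _ ≤ volume (interior (solid big)) + volume (frontier (solid big)) := measure_union_le _ _
      _ = volume (interior (solid big)) := by rw [h, add_zero]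
  have hAfin : volume (solid big) ≠ ⊤ := A_compact.measure_lt_top.ne
  have hPfin : volume P ≠ ⊤ := by
    rw [hPv]
    exact ENNReal.mul_ne_top ENNReal.ofReal_ne_top hAfin
  have hPf : ∀ x ∈ frontier P, x ∈ U := by
    intro x hx
    rw [hPdef, D_fr] at hx
    obtain ⟨y, hy, rfl⟩ := hx
    exact hfr y hy
  have hPcl : P ⊆ closure (interior P) := by
    rw [hPdef, D_int, D_clo,
      A_convex.closure_interior_eq_closure_of_nonempty_interior A_int,
      A_compact.isClosed.closure_eq]
  have hfin : (Til P).Finite := Til_finite hPfin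
  have hcov := til_cover hPc hPcl hPf hfin
  have hcard : (Til P).ncard = N := by
    have h1 := til_card hPc hPf hfin
    rw [hPv, hAv, hN] at h1
    have h2 := (ENNReal.mul_left_inj vol_pos.ne' (by rw [← hAv]; exact hAfin)).mp h1
    rw [ENNReal.ofReal_natCast] at h2
    exact_mod_cast h2.symm
  have hfin' : Finite (Til P) := hfin
  have hcard' : Nat.card (Til P) = N := hcard
  let e : Fin N ≃ Til P := (Finite.equivFinOfCardEq hcard').symm
  choose w hw hwT using fun i => (e i).2.1
  have hsub : ∀ i, w i '' solid big ⊆ P := fun i => hwT i ▸ (e i).2.2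
  have hP : P = ⋃ i, w i '' solid big := by
    rw [hcov]
    apply Set.Subset.antisymm
    · apply Set.iUnion₂_subset
      intro T hT
      have : T = w (e.symm ⟨T, hT⟩) '' solid big := by
        rw [← hwT, e.apply_symm_apply]
      rw [this]
      exact Set.subset_iUnion (fun i => w i '' solid big) _
    · apply Set.iUnion_subset
      intro i
      rw [← hwT i]
      exact Set.subset_biUnion_of_mem (u := fun T => T) (e i).2
  let G : Fin N → (E4 ≃ᵃ[ℝ] E4) := fun i =>
    (w i).toRealAffineIsometryEquiv.toAffineEquiv.trans D.symm.toAffineEquiv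
  have hG : ∀ i x, G i x = D.symm (w i x) := fun i x => rfl
  let t : Fin N → Affine.Simplex ℝ E4 4 := fun i => big.map (G i).toAffineMap (G i).injective
  have ht : ∀ i, solid (t i) = D.symm '' (w i '' solid big) := by
    intro i
    have h : Set.range (t i).points = (G i).toAffineMap '' Set.range big.points := by
      rw [← Set.range_comp]; rfl
    rw [solid, h, ← AffineMap.image_convexHull, Set.image_image]
    rfl
  refine ⟨t, ?_, ?_, ?_, ?_⟩
  · have h1 : solid big = D.symm '' P := by
      rw [hPdef, Set.image_image]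
      simp
    rw [h1, hP, Set.image_iUnion]
    exact Set.iUnion_congr fun i => (ht i).symm
  · intro i j hij
    rw [ht, ht, D_int, D_int]
    rw [Set.disjoint_image_iff D.symm.injective]
    have hne : (e i).1 ≠ (e j).1 := fun h => hij (e.injective (Subtype.ext h))
    have := Til_disj (e i).2 (e j).2 hne
    rwa [hwT i, hwT j] at this
  · intro i j
    let f : E4 ≃ᵢ E4 :=
      { toEquiv := ((D.toEquiv.trans (w i).symm.toEquiv).trans (w j).toEquiv).trans D.symm.toEquiv
        isometry_toFun := by
          apply Isometry.of_dist_eq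
          intro x y
          change dist (D.symm (w j ((w i).symm (D x)))) (D.symm (w j ((w i).symm (D y)))) = _
          rw [hDs, (w j).dist_eq, (w i).symm.dist_eq, hD, ← mul_assoc, inv_mul_cancel₀ hc.ne',
            one_mul] }
    have hf : ∀ x, f x = D.symm (w j ((w i).symm (D x))) := fun x => rfl
    refine ⟨f, ?_⟩
    rw [ht, ht, Set.image_image, Set.image_image, Set.image_image]
    apply Set.image_congr
    intro x _
    rw [hf, D.apply_symm_apply, (w i).symm_apply_apply]
  · intro i
    let f : E4 ≃ᵈ E4 :=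
      { toEquiv := (w i).toEquiv.trans D.symm.toEquiv
        edist_eq' := by
          refine ⟨Real.toNNReal c⁻¹, ?_, ?_⟩
          · rw [ne_eq, Real.toNNReal_eq_zero, not_le]
            positivity
          · intro x y
            rw [edist_dist, edist_dist]
            change _ = ENNReal.ofReal c⁻¹ * _
            rw [← ENNReal.ofReal_mul (by positivity)]
            congr 1
            change dist (D.symm (w i x)) (D.symm (w i y)) = _
            rw [hDs, (w i).dist_eq] }
    have hf : ∀ x, f x = D.symm (w i x) := fun x => rfl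
    refine ⟨f, ?_⟩
    rw [ht, Set.image_image]
    apply Set.image_congr
    intro x _
    rw [hf]

/-- the alcove is an `m⁴`-reptile -/
theorem rep1 (m : ℕ) (hm : 1 ≤ m) : IsReptile 4 (m ^ 4) big := by
  have hm0 : (0 : ℝ) < m := by exact_mod_cast hm
  refine reptile_of_dil (LinearEquiv.smulOfNeZero ℝ E4 (m : ℝ) hm0.ne') hm0 ?_ ?_ (by push_cast; rfl)
  · intro x y
    change dist ((m : ℝ) • x) ((m : ℝ) • y) = _
    rw [dist_smul₀, Real.norm_eq_abs, abs_of_pos hm0]
  · intro x hx
    have e : ∀ i, (LinearEquiv.smulOfNeZero ℝ E4 (m : ℝ) hm0.ne') x i = m * x i := fun i => rfl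
    rcases frA x hx 1 rfl with h | h | h | h | h
    · refine ⟨![1, -1, -1, -1], Or.inr (by simp [Fin.sum_univ_four]), 0, ?_⟩
      rw [Fin.sum_univ_four, e, e, e, e]
      simp
      linear_combination (-(m : ℝ)) * h
    · refine ⟨![0, 1, -1, 0], Or.inl (by simp [Fin.sum_univ_four]), 0, ?_⟩
      rw [Fin.sum_univ_four, e, e, e, e]
      simp
      linear_combination (-(m : ℝ)) * h
    · refine ⟨![0, 0, 1, -1], Or.inl (by simp [Fin.sum_univ_four]), 0, ?_⟩
      rw [Fin.sum_univ_four, e, e, e, e]
      simp
      linear_combination (-(m : ℝ)) * h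
    · refine ⟨![0, 0, 0, 2], Or.inr (by simp [Fin.sum_univ_four]), 0, ?_⟩
      rw [Fin.sum_univ_four, e, e, e, e, ← h]
      simp
    · refine ⟨![2, 0, 0, 0], Or.inr (by simp [Fin.sum_univ_four]), m, ?_⟩
      rw [Fin.sum_univ_four, e, e, e, e]
      simp
      linear_combination (m : ℝ) * h

/-- the alcove is a `4m⁴`-reptile -/
theorem rep2 (m : ℕ) (hm : 1 ≤ m) : IsReptile 4 (4 * m ^ 4) big := by
  have hm0 : (0 : ℝ) < m := by exact_mod_cast hm
  have hc : (0 : ℝ) < m * √2 := by positivity
  have e : ∀ (x : E4), (half.symm.trans (LinearEquiv.smulOfNeZero ℝ E4 (m : ℝ) hm0.ne')) x =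
      (m : ℝ) • half.symm x := fun x => rfl
  have hs : ∀ x y : E4, dist (half.symm x) (half.symm y) = √2 * dist x y := by
    intro x y
    have h1 : (dist (half.symm x) (half.symm y)) ^ 2 = (√2 * dist x y) ^ 2 := by
      rw [mul_pow, dist_sq, dist_sq, Real.sq_sqrt (by norm_num), half_symm_apply, half_symm_apply]
      simp
      ring
    rwa [sq_eq_sq₀ dist_nonneg (by positivity)] at h1
  refine reptile_of_dil (half.symm.trans (LinearEquiv.smulOfNeZero ℝ E4 (m : ℝ) hm0.ne')) hc
    ?_ ?_ ?_
  · intro x y
    rw [e, e, dist_smul₀, Real.norm_eq_abs, abs_of_pos hm0, hs, mul_assoc]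
  · intro x hx
    have e0 : (half.symm.trans (LinearEquiv.smulOfNeZero ℝ E4 (m : ℝ) hm0.ne')) x 0 =
      m * (x 0 + x 1) := rfl
    have e1 : (half.symm.trans (LinearEquiv.smulOfNeZero ℝ E4 (m : ℝ) hm0.ne')) x 1 =
      m * (x 0 - x 1) := rfl
    have e2 : (half.symm.trans (LinearEquiv.smulOfNeZero ℝ E4 (m : ℝ) hm0.ne')) x 2 =
      m * (x 2 + x 3) := rfl
    have e3 : (half.symm.trans (LinearEquiv.smulOfNeZero ℝ E4 (m : ℝ) hm0.ne')) x 3 =
      m * (x 2 - x 3) := rfl
    rcases frA x hx 1 rfl with h | h | h | h | h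
    · refine ⟨![0, 1, -1, 0], Or.inl (by simp [Fin.sum_univ_four]), 0, ?_⟩
      rw [Fin.sum_univ_four, e0, e1, e2, e3]
      simp
      linear_combination (-(m : ℝ)) * h
    · refine ⟨![1, -1, -1, -1], Or.inr (by simp [Fin.sum_univ_four]), 0, ?_⟩
      rw [Fin.sum_univ_four, e0, e1, e2, e3]
      simp
      linear_combination (-2 * (m : ℝ)) * h
    · refine ⟨![0, 0, 0, 2], Or.inr (by simp [Fin.sum_univ_four]), 0, ?_⟩
      rw [Fin.sum_univ_four, e0, e1, e2, e3]
      simp
      right
      linarith
    · refine ⟨![0, 0, 1, -1], Or.inl (by simp [Fin.sum_univ_four]), 0, ?_⟩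
      rw [Fin.sum_univ_four, e0, e1, e2, e3]
      simp
      linear_combination (-2 * (m : ℝ)) * h
    · refine ⟨![1, 1, 0, 0], Or.inl (by simp [Fin.sum_univ_four]), m, ?_⟩
      rw [Fin.sum_univ_four, e0, e1, e2, e3]
      simp
      linear_combination (2 * (m : ℝ)) * h
  · have h2 : (√2 : ℝ) ^ 4 = 4 := by
      have : (√2 : ℝ) ^ 4 = (√2 ^ 2) ^ 2 := by ring
      rw [this, Real.sq_sqrt (by norm_num)]
      norm_num
    rw [mul_pow, h2]
    push_cast
    ring

end Pool.Agent.Y432.F4
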