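import Pool.Agent.Y432.F4.Cnt

/-!
# A dilated alcove bounded by hyperplanes of the arrangement is tiled by alcoves
-/

set_option autoImplicit false

namespace Pool.Agent.Y432.F4

open Pool.Agent.Results.MP_9fc4df_co.F4Alcove
open MeasureTheory Function

/-- frontier of the alcove -/
lemma frA_U {x : E4} (hx : x ∈ frontier (solid big)) : x ∈ U := by
  rcases frA x hx 1 rfl with h | h | h | h | h
  · refine ⟨![1, -1, -1, -1], Or.inr (by simp [Fin.sum_univ_four]), 0, ?_⟩
    simp [Fin.sum_univ_four]
    linarith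
  · refine ⟨![0, 1, -1, 0], Or.inl (by simp [Fin.sum_univ_four]), 0, ?_⟩
    simp [Fin.sum_univ_four]
    linarith
  · refine ⟨![0, 0, 1, -1], Or.inl (by simp [Fin.sum_univ_four]), 0, ?_⟩
    simp [Fin.sum_univ_four]
    linarith
  · refine ⟨![0, 0, 0, 2], Or.inr (by simp [Fin.sum_univ_four]), 0, ?_⟩
    simp [Fin.sum_univ_four]
    linarith
  · refine ⟨![2, 0, 0, 0], Or.inr (by simp [Fin.sum_univ_four]), 1, ?_⟩
    simp [Fin.sum_univ_four]
    linarith

/-- the alcoves inside `P` -/
def Til (P : Set E4) : Set (Set E4) := {T | (∃ w, Pres w ∧ T = w '' solid big) ∧ T ⊆ P}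

lemma closed_w (w : E4 ≃ᵢ E4) : IsClosed (w '' solid big) :=
  (A_compact.image w.continuous).isClosed

lemma int_ne (w : E4 ≃ᵢ E4) : (interior (w '' solid big)).Nonempty := by
  rw [im_interior]
  exact A_int.image _

lemma clos_int (w : E4 ≃ᵢ E4) : closure (interior (w '' solid big)) = w '' solid big := by
  rw [(im_convex w A_convex).closure_interior_eq_closure_of_nonempty_interior (int_ne w)]
  exact (closed_w w).closure_eq

lemma fr_w {w : E4 ≃ᵢ E4} (hw : Pres w) {x : E4} (hx : x ∈ frontier (w '' solid big)) :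
    x ∈ U := by
  rw [im_frontier] at hx
  obtain ⟨y, hy, rfl⟩ := hx
  exact (hw y).mpr (frA_U hy)

lemma int_w {w : E4 ≃ᵢ E4} (hw : Pres w) {x : E4} (hx : x ∈ interior (w '' solid big)) :
    x ∉ U := by
  rw [im_interior] at hx
  obtain ⟨y, hy, rfl⟩ := hx
  exact fun h => int_disj hy ((hw y).mp h)

/-- an alcove meeting a closed set bounded by hyperplanes at a generic point lies inside it -/
lemma w_sub {w : E4 ≃ᵢ E4} (hw : Pres w) {S : Set E4} (hS : IsClosed S)
    (hf : ∀ x ∈ frontier S, x ∈ U) (hm : (interior (w '' solid big) ∩ S).Nonempty) :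
    w '' solid big ⊆ S := by
  have h := sub_of_meet (im_convex w A_convex).interior.isPreconnected hS
    (fun x hx hx' => int_w hw hx (hf x hx')) hm
  have h2 := closure_mono (h.trans interior_subset)
  rwa [clos_int, hS.closure_eq] at h2

lemma w_eq {w w' : E4 ≃ᵢ E4} (hw : Pres w) (hw' : Pres w')
    (h : (interior (w '' solid big) ∩ interior (w' '' solid big)).Nonempty) :
    w '' solid big = w' '' solid big := by
  apply Set.Subset.antisymm
  · exact w_sub hw (closed_w w') (fun x hx => fr_w hw' hx)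
      (h.mono (Set.inter_subset_inter_right _ interior_subset))
  · refine w_sub hw' (closed_w w) (fun x hx => fr_w hw hx) ?_
    rw [Set.inter_comm] at h
    exact h.mono (Set.inter_subset_inter_right _ interior_subset)

lemma Til_disj {P : Set E4} {T T' : Set E4} (h : T ∈ Til P) (h' : T' ∈ Til P) (hne : T ≠ T') :
    Disjoint (interior T) (interior T') := by
  obtain ⟨⟨w, hw, rfl⟩, -⟩ := h
  obtain ⟨⟨w', hw', rfl⟩, -⟩ := h'
  by_contra hcon
  exact hne (w_eq hw hw' (Set.not_disjoint_iff_nonempty_inter.mp hcon))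

lemma vol_int (w : E4 ≃ᵢ E4) : volume (interior (w '' solid big)) = volume (interior (solid big)) := by
  rw [im_interior, im_vol]

lemma vol_pos : 0 < volume (interior (solid big)) := isOpen_interior.measure_pos volume A_int

lemma Til_finite {P : Set E4} (hP : volume P ≠ ⊤) : (Til P).Finite := by
  have h := Measure.finite_const_le_meas_of_disjoint_iUnion (ι := Til P) volume vol_pos
    (As := fun T => interior T.1) (fun T => isOpen_interior.measurableSet)
    (fun T T' hne => Til_disj T.2 T'.2 (fun h => hne (Subtype.ext h)))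
    (ne_top_of_le_ne_top hP (measure_mono (Set.iUnion_subset fun T =>
      interior_subset.trans T.2.2)))
  have h2 : {T : Til P | volume (interior (solid big)) ≤ volume (interior T.1)} = Set.univ := by
    apply Set.eq_univ_of_forall
    rintro ⟨T, ⟨w, hw, rfl⟩, hT⟩
    exact (vol_int w).ge
  rw [h2] at h
  exact Set.finite_univ_iff.mp h

lemma mem_til {P : Set E4} (hP : IsClosed P) (hf : ∀ x ∈ frontier P, x ∈ U) {y : E4} (hy : y ∈ P)
    (hyU : y ∉ U) : ∃ T ∈ Til P, y ∈ interior T := by
  obtain ⟨w, hw, hwy⟩ := cover y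
  have h1 : y ∈ w.symm '' solid big := ⟨w y, hwy, w.symm_apply_apply y⟩
  have h2 : y ∈ interior (w.symm '' solid big) := by
    by_contra hni
    exact hyU (fr_w hw.symm ⟨subset_closure h1, hni⟩)
  exact ⟨_, ⟨⟨w.symm, hw.symm, rfl⟩, w_sub hw.symm hP hf ⟨y, h2, hy⟩⟩, h2⟩

lemma til_cover {P : Set E4} (hP : IsClosed P) (hc : P ⊆ closure (interior P))
    (hf : ∀ x ∈ frontier P, x ∈ U) (hfin : (Til P).Finite) : P = ⋃ T ∈ Til P, T := by
  apply Set.Subset.antisymm
  · intro y hy
    by_contra hcon
    have hcl : IsClosed (⋃ T ∈ Til P, T) := by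
      apply hfin.isClosed_biUnion
      rintro T ⟨⟨w, hw, rfl⟩, -⟩
      exact closed_w w
    have h1 : ((⋃ T ∈ Til P, T)ᶜ ∩ interior P).Nonempty :=
      mem_closure_iff.mp (hc hy) _ hcl.isOpen_compl hcon
    have h2 : 0 < volume ((⋃ T ∈ Til P, T)ᶜ ∩ interior P) :=
      (hcl.isOpen_compl.inter isOpen_interior).measure_pos volume h1
    have h3 : ¬ ((⋃ T ∈ Til P, T)ᶜ ∩ interior P) ⊆ U := by
      intro hs
      have := measure_mono_null hs null_U
      rw [this] at h2
      exact lt_irrefl _ h2
    rw [Set.not_subset] at h3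
    obtain ⟨z, ⟨hz1, hz2⟩, hz3⟩ := h3
    obtain ⟨T, hT, hzT⟩ := mem_til hP hf (interior_subset hz2) hz3
    exact hz1 (Set.mem_biUnion hT (interior_subset hzT))
  · exact Set.iUnion₂_subset fun T hT => hT.2

lemma til_card {P : Set E4} (hP : IsClosed P)
    (hf : ∀ x ∈ frontier P, x ∈ U) (hfin : (Til P).Finite) :
    volume P = (Til P).ncard * volume (interior (solid big)) := by
  have h1 : volume P = volume (⋃ T ∈ Til P, interior T) := by
    apply le_antisymm
    · have : P ⊆ (⋃ T ∈ Til P, interior T) ∪ U := by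
        intro y hy
        by_cases hyU : y ∈ U
        · exact Or.inr hyU
        · obtain ⟨T, hT, hyT⟩ := mem_til hP hf hy hyU
          exact Or.inl (Set.mem_biUnion hT hyT)
      calc volume P ≤ volume ((⋃ T ∈ Til P, interior T) ∪ U) := measure_mono this
        _ ≤ volume (⋃ T ∈ Til P, interior T) + volume U := measure_union_le _ _
        _ = volume (⋃ T ∈ Til P, interior T) := by rw [null_U, add_zero]
    · exact measure_mono (Set.iUnion₂_subset fun T hT => interior_subset.trans hT.2)
  rw [h1, measure_biUnion hfin.countable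
    (fun T hT T' hT' hne => Til_disj hT hT' hne) (fun T _ => isOpen_interior.measurableSet)]
  have h2 : ∀ T : Til P, volume (interior T.1) = volume (interior (solid big)) := by
    rintro ⟨T, ⟨w, hw, rfl⟩, hT⟩
    exact vol_int w
  rw [tsum_congr h2]
  have := hfin.fintype
  rw [tsum_fintype, Finset.sum_const, nsmul_eq_mul, Finset.card_univ, Set.ncard_eq_toFinset_card',
    Set.toFinset_card]

end Pool.Agent.Y432.F4
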